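import Pool.Agent.W275.FML.Stm

set_option autoImplicit false

/-!
# Project FML (helper275), part TMUL: multiples in the kernel of the reduction
-/

namespace Pool.Agent.W18.FML.TMul

open WeierstrassCurve Pool.Agent.H901R3.MS Pool.Agent.W275.FM Pool.Agent.W490.FM.KEY
open Pool.Agent.W275.FML
open scoped Classical

theorem E1_zero {K k : Type} [Field K] [Field k] (v : Place K k) {a b : K} :
    E1 v (0 : Pt a b) := by
  intro x y h e
  exact absurd e (by simp [Affine.Point.zero_def])

theorem tt_zero {K : Type} [Field K] {a b : K} : tt (0 : Pt a b) = 0 := rfl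

theorem main : S_TADD → S_TMUL := by
  intro hT K k _ _ _ v a b h2 P hP
  obtain ⟨h1, hadd⟩ := hT K k v a b h2
  obtain ⟨htA, htr, ht0, -, -⟩ := h1 P hP
  set t := tt P with ht
  have first : ∀ j : ℕ, E1 v (j • P) ∧ ∃ g ∈ v.A, v.r g = 0 ∧ tt (j • P) = j * t + t ^ 2 * g := by
    intro j
    induction j with
    | zero =>
      refine ⟨by rw [zero_smul]; exact E1_zero v, 0, v.A.zero_mem, v.r_zero, ?_⟩
      rw [zero_smul, tt_zero]
      simp
    | succ j ih =>
      obtain ⟨hE, g, hg, hgr, hgt⟩ := ih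
      obtain ⟨hE', g', hg', hgr', hgt'⟩ := hadd (j • P) P hE hP
      rw [succ_nsmul]
      have hj : (j : K) ∈ v.A := v.nat_mem j
      have m1 : (j : K) + t * g ∈ v.A := v.A.add_mem hj (v.A.mul_mem htA hg)
      refine ⟨hE', g + ((j : K) + t * g) * g', v.A.add_mem hg (v.A.mul_mem m1 hg'), ?_, ?_⟩
      · rw [v.r_add hg (v.A.mul_mem m1 hg'), v.r_mul m1 hg', hgr, hgr']
        ring
      · rw [hgt', hgt]
        push_cast
        ring
  refine ⟨first, ?_⟩
  intro n hn hP0 hnP hmem
  have ht' : t ≠ 0 := fun h => hP0 (ht0 h)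
  obtain ⟨-, g, hg, hgr, hgt⟩ := first n
  rw [hnP, tt_zero] at hgt
  have e1 : (n : K) = -(t * g) := by
    have : t * ((n : K) + t * g) = 0 := by linear_combination -hgt
    rcases mul_eq_zero.1 this with h | h
    · exact absurd h ht'
    · linear_combination h
  have e2 : (-g) * (t / n) = 1 := by
    field_simp
    rw [e1]
    ring
  have h3 := v.r_mul (v.A.neg_mem hg) hmem
  rw [e2, v.r_one, v.r_neg hg, hgr] at h3
  simp at h3

end Pool.Agent.W18.FML.TMul
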